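import Mathlib
import Pool.Agent.Helper75.Defs
import Pool.Agent.Helper75.F2Defs
import Pool.Agent.Y29.GT.Defs
import Pool.Agent.Y29.GT.Main

namespace Pool.Agent.Results.MP_47cbd1_al.AlmostAll

open Pool.Agent.Helper75.Defs Pool.Agent.Helper75.F2Defs Pool.Agent.Helper75.F2Lemmas
  Pool.Agent.Helper75.Basic Pool.Agent.Y29.GT
open MeasureTheory Filter Topology

/-- Sanity check: the profinite power is a genuine limit. -/
theorem ppow_is_limit (g : F2) (l : Zhat) : Filter.Tendsto
    (fun k : ℕ => g ^ res l ⟨k.factorial, k.factorial_pos⟩) Filter.atTop (nhds (ppow g l)) :=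
  tendsto_ppow g l

/-- Sanity check: a continuous endomorphism is determined by its values on `x` and `y`. -/
theorem endo_unique (φ ψ : F2 →ₜ* F2) (hX : φ X = ψ X) (hY : φ Y = ψ Y) : φ = ψ :=
  hom_ext_XY hX hY

/-- Let `D` be a closed subgroup of the free profinite group `F2` on `x, y` which contains the
kernel `Dinf` of the projection to the maximal prosolvable quotient (for instance `D` the closed
derived subgroup, or `D = Dinf`), and let `f` be any element of `F2`. For almost every `h` in `D`
(Haar measure), and for a comeager set of `h` in `D`, the following holds for all profinite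
integers `l` simultaneously: the endomorphism attached to `(l, h f)` has an image of infinite
index; the same for the twisted conjugates `h(x,y) f(x,y) h(y,x)⁻¹`, which satisfy relation (I) if
`f` does. The elements with this property are dense in the set of all `f` in the closed derived
subgroup with relation (I), even if the image in the maximal prosolvable quotient is prescribed. -/
theorem result :
    (∀ D : Subgroup F2, IsClosed (D : Set F2) → Dinf ≤ D → ∀ f : F2,
      (∀ (_ : MeasurableSpace D) (_ : BorelSpace D) (μ : Measure D) (_ : μ.IsHaarMeasure),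
        (∀ᵐ (h : D) ∂μ, ∀ l : Zhat, Bad l ((h : F2) * f)) ∧
        (∀ᵐ (h : D) ∂μ, ∀ l : Zhat, Bad l (tw f (h : F2)))) ∧
      (∀ᶠ (h : D) in residual D, ∀ l : Zhat, Bad l ((h : F2) * f)) ∧
      (∀ᶠ (h : D) in residual D, ∀ l : Zhat, Bad l (tw f (h : F2))) ∧
      (RelI f → ∀ h : F2, RelI (tw f h))) ∧
    (∃ D : Subgroup F2, (D : Set F2) = derived ∧ IsClosed (D : Set F2) ∧ Dinf ≤ D) ∧
    ∀ f ∈ derived, RelI f → ∀ U ∈ 𝓝 f,
      ∃ g ∈ U, g ∈ derived ∧ g * f⁻¹ ∈ Dinf ∧ RelI g ∧ ∀ l : Zhat, Bad l g := by
  refine ⟨?_, ⟨Dk 1, Dk_one, isClosed_Dk 1, Dinf_le 1⟩, exists_near⟩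
  intro D hc hD f
  refine ⟨?_, residual_bad hD hc (comp_mul D f), residual_bad hD hc (comp_tw D f),
    fun hI h => relI_tw hI h⟩
  intro _ _ μ _
  exact ⟨ae_bad hD hc μ (comp_mul D f), ae_bad hD hc μ (comp_tw D f)⟩

end Pool.Agent.Results.MP_47cbd1_al.AlmostAll
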